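import Pool.Agent.H9.EC.SnBd

set_option autoImplicit false

/-! # Orthogonality of the additive characters of `ZMod m ^ ι` (helper87, for H9 EC FOU, WLK) -/

namespace Pool.Agent.H87.EC

open Finset Matrix Pool.Agent.H9.EC

variable {m : ℕ} [NeZero m]

/-- `exp (2 π i t / m)` -/
noncomputable def ec (t : ZMod m) : ℂ := ZMod.stdAddChar t

theorem ec_zero : ec (0 : ZMod m) = 1 := AddChar.map_zero_eq_one _

theorem ec_add (a b : ZMod m) : ec (a + b) = ec a * ec b := AddChar.map_add_eq_mul _ a b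

theorem ec_sum {ι : Type} (s : Finset ι) (f : ι → ZMod m) : ec (∑ i ∈ s, f i) = ∏ i ∈ s, ec (f i) := by
  classical
  induction s using Finset.induction_on with
  | empty => rw [sum_empty, prod_empty, ec_zero]
  | insert a s ha ih => rw [sum_insert ha, prod_insert ha, ec_add, ih]

theorem ec_val (t : ZMod m) : ec t = Complex.exp ((2 * Real.pi * t.val / m : ℝ) * Complex.I) := by
  have h := ZMod.stdAddChar_coe (N := m) (t.val : ℤ)
  have h1 : (((t.val : ℤ)) : ZMod m) = t := by
    rw [Int.cast_natCast, ZMod.natCast_zmod_val]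
  rw [h1] at h
  unfold ec
  rw [h]
  congr 1
  push_cast
  ring

theorem ec_neg (t : ZMod m) :
    ec (-t) = Complex.exp (-((2 * Real.pi * t.val / m : ℝ) * Complex.I)) := by
  have h1 : ec (-t) * ec t = 1 := by rw [← ec_add, neg_add_cancel, ec_zero]
  rw [Complex.exp_neg, ← ec_val]
  exact eq_inv_of_mul_eq_one_left h1

theorem ec_two (t : ZMod m) : ec t + ec (-t) = ((2 * Real.cos (2 * Real.pi * t.val / m) : ℝ) : ℂ) := by
  rw [ec_val, ec_neg, Complex.ofReal_mul, Complex.ofReal_cos, Complex.cos, Complex.ofReal_ofNat, ← neg_mul]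
  ring

/-- orthogonality -/
theorem orth {ι : Type} [Fintype ι] [DecidableEq ι] (y : ι → ZMod m) :
    ∑ u : ι → ZMod m, ec (∑ i, u i * y i) = if y = 0 then (m : ℂ) ^ Fintype.card ι else 0 := by
  have h1 : ∑ u : ι → ZMod m, ec (∑ i, u i * y i) = ∏ i, ∑ t : ZMod m, ec (t * y i) := by
    rw [Fintype.prod_sum]
    exact sum_congr rfl fun u _ => ec_sum _ _
  have h2 : ∀ i, ∑ t : ZMod m, ec (t * y i) = if y i = 0 then (m : ℂ) else 0 := by
    intro i
    have h := AddChar.sum_mulShift (R' := ℂ) (y i) (ZMod.isPrimitive_stdAddChar m)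
    unfold ec
    rw [h, ZMod.card]
    split_ifs <;> simp
  rw [h1]
  split_ifs with hy
  · rw [← Finset.card_univ, ← prod_const]
    refine prod_congr rfl fun i _ => ?_
    rw [h2, hy, Pi.zero_apply, if_pos rfl]
  · obtain ⟨i, hi⟩ : ∃ i, y i ≠ 0 := by
      by_contra hcon
      push Not at hcon
      exact hy (funext hcon)
    refine prod_eq_zero (mem_univ i) ?_
    rw [h2, if_neg hi]

/-- the number of the zeros of a family of vectors -/
theorem card_zero {ι Ω : Type} [Fintype ι] [DecidableEq ι] [Fintype Ω] (y : Ω → ι → ZMod m) :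
    (Nat.card {w : Ω // y w = 0} : ℂ) * (m : ℂ) ^ Fintype.card ι =
      ∑ w, ∑ u : ι → ZMod m, ec (∑ i, u i * y w i) := by
  classical
  rw [sum_congr rfl fun w _ => orth (y w), Nat.card_eq_fintype_card, Fintype.card_subtype,
    ← sum_filter, sum_const, nsmul_eq_mul]

end Pool.Agent.H87.EC
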